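import Pool.Agent.Helper56.RZ.GoalsD
import Pool.Agent.Helper69.RZ.F3
import Pool.Agent.Helper34.RZ.F1

/-!
# Uniform bounds for the twist with an angle function (packet RZ3-TE of helper56)
-/

set_option autoImplicit false

open Set Filter Topology MeasureTheory

open scoped ContDiff

namespace Pool.Agent.Helper37.RZ

open Pool.Agent.Helper56.RZ Pool.Agent.Helper69.RZ

theorem te (hTA : StmtTA) : StmtTE := by
  intro N p hp d a ha
  obtain ⟨_, hF⟩ := Pool.Agent.Helper34.RZ.f1 N p hp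
  obtain ⟨_, _, hqs, _, _, _, _, c0, hc0, hq⟩ := hF d
  obtain ⟨hHs, hqH, hHH, hH0, hHq, _, _⟩ := hTA N p hp d a ha
  set G : ℝ × E N → E N := fun x => d.Ha a x.1 x.2 with hG
  set K : Set (E N) := {z | d.q z ≤ 1} with hK
  have hKc : IsCompact K := by
    apply Metric.isCompact_of_isClosed_isBounded
    · exact isClosed_le hqs.continuous continuous_const
    · rw [isBounded_iff_forall_norm_le]
      refine ⟨c0, fun z hz => ?_⟩
      have h2 := (hq z).1
      have h3 : d.q z ≤ 1 := hz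
      have h4 := norm_nonneg z
      by_contra hcon
      rw [not_le] at hcon
      nlinarith
  have hout : ∀ z, z ∉ K → ∀ t, G (t, z) = z := by
    intro z hz t
    apply hHq t z
    have : ¬ d.q z ≤ 1 := hz
    linarith
  have hGd : Differentiable ℝ G := hHs.differentiable (by simp)
  have hsm1 : ContDiff ℝ ∞ (fun x : ℝ × E N => G x - x.2) := hHs.sub contDiff_snd
  obtain ⟨c1, hc1, hT1⟩ := taylor hsm1 0 (fun z => by
    show d.Ha a 0 z - z = 0
    rw [hH0, sub_self]) hKc (fun z hz t => by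
    show G (t, z) - z = 0
    rw [hout z hz t, sub_self])
  set Φ : ℝ × E N → End N := fun x => (fderiv ℝ G x).comp (ContinuousLinearMap.inr ℝ ℝ (E N))
    with hΦ
  have hG1s : ContDiff ℝ ∞ (fderiv ℝ G) := hHs.fderiv_right (by simp)
  have hΦs : ContDiff ℝ ∞ Φ := hG1s.clm_comp contDiff_const
  have hΦ1 : ∀ t z, fderiv ℝ (d.Ha a t) z = Φ (t, z) := by
    intro t z
    have h2 : HasFDerivAt (fun y : E N => (t, y)) (ContinuousLinearMap.inr ℝ ℝ (E N)) z :=
      hasFDerivAt_prodMk_right t z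
    exact ((hGd (t, z)).hasFDerivAt.comp z h2).fderiv
  have hΦ0 : ∀ z, Φ (0, z) = 1 := by
    intro z
    rw [← hΦ1]
    have h2 : d.Ha a 0 = fun z => z := funext hH0
    rw [h2]
    exact fderiv_fun_id
  have hΦout : ∀ z, z ∉ K → ∀ t, Φ (t, z) = 1 := by
    intro z hz t
    rw [← hΦ1]
    have hop : IsOpen Kᶜ := hKc.isClosed.isOpen_compl
    have h2 : d.Ha a t =ᶠ[𝓝 z] fun z => z := by
      filter_upwards [hop.mem_nhds hz] with y hy
      exact hout y hy t
    rw [h2.fderiv_eq]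
    exact fderiv_fun_id
  obtain ⟨c2, hc2, hT2⟩ := taylor hΦs 1 hΦ0 hKc hΦout
  refine ⟨max 1 (max c1 c2), le_max_left _ _, fun t z ht => ?_⟩
  have hc1' : c1 ≤ max 1 (max c1 c2) := (le_max_left _ _).trans (le_max_right _ _)
  have hc2' : c2 ≤ max 1 (max c1 c2) := (le_max_right _ _).trans (le_max_right _ _)
  obtain ⟨a1, _, _⟩ := hT1 t z ht
  obtain ⟨b1, _, _⟩ := hT2 t z ht
  rw [← hΦ1] at b1
  refine ⟨?_, b1.trans (mul_le_mul_of_nonneg_right hc2' (abs_nonneg t))⟩
  have e : d.Ha a t z - z = d.Ha a t z - z - 0 := by rw [sub_zero]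
  rw [e]
  exact a1.trans (mul_le_mul_of_nonneg_right hc1' (abs_nonneg t))

end Pool.Agent.Helper37.RZ
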